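import Pool.Agent.Helper75.PM.Stm
import Pool.Graph.R_seed8.H306R2.ZetaGrowth

/-! Project PM, package MA: the mollified second moment with the Gamma weights. -/

set_option autoImplicit false

open Complex Filter Topology MeasureTheory

namespace Pool.Agent.Helper76.PM

open Pool.Agent.Helper75.PM

noncomputable section

lemma weight_nonneg {k : ℕ} {T t : ℝ} (hT : 0 < T) (ht : 0 ≤ t) : 0 ≤ weight k T t := by
  unfold weight; positivity

lemma weight_cont (k : ℕ) (T : ℝ) : Continuous (weight k T) := by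
  unfold weight; fun_prop

/-- integrability of `weight * (1+t)^A` -/
lemma weight_poly (k A : ℕ) {T : ℝ} (hk : 1 ≤ k) (hT : 0 < T) :
    IntegrableOn (fun t : ℝ => weight k T t * (1 + t) ^ A) (Set.Ioi 0) := by
  have hk0 : (0 : ℝ) < k := by exact_mod_cast hk
  have hδ : 0 < (k : ℝ) / T := by positivity
  set δ : ℝ := (k : ℝ) / T with hδd
  have h1 : ∀ j : ℕ, IntegrableOn (fun t : ℝ => t ^ (k + j) * Real.exp (-(δ * t))) (Set.Ioi 0) := by
    intro j
    have := Real.GammaIntegral_convergent (s := (k + j : ℕ) + 1) (by positivity)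
    have h2 := (integrableOn_Ioi_comp_mul_left_iff (fun x : ℝ => Real.exp (-x) * x ^ (((k + j : ℕ):ℝ) + 1 - 1)) 0 hδ).mpr
      (by simpa using this)
    have h3 : IntegrableOn (fun x => (δ ^ (k + j))⁻¹ *
        (Real.exp (-(δ * x)) * (δ * x) ^ (((k + j : ℕ) : ℝ) + 1 - 1))) (Set.Ioi 0) :=
      h2.const_mul ((δ ^ (k + j))⁻¹)
    refine h3.congr_fun (fun t ht => ?_) measurableSet_Ioi
    have ht0 : 0 < t := ht
    simp only [add_sub_cancel_right]
    rw [Real.rpow_natCast, mul_pow]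
    field_simp
  have h4 : (fun t : ℝ => weight k T t * (1 + t) ^ A) = fun t : ℝ =>
      ∑ j ∈ Finset.range (A + 1), (δ ^ (k + 1) / (k.factorial : ℝ) * (A.choose j : ℝ)) *
        (t ^ (k + j) * Real.exp (-(δ * t))) := by
    funext t
    rw [add_comm 1 t, add_pow, Finset.mul_sum]
    refine Finset.sum_congr rfl fun j _ => ?_
    unfold weight
    rw [← hδd, pow_add]
    ring
  rw [h4]
  exact integrable_finsetSum _ fun j _ => (h1 j).const_mul _

lemma zeta_cont : Continuous (fun t : ℝ => riemannZeta (1 / 2 + t * I)) := by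
  rw [continuous_iff_continuousAt]
  intro t
  have h1 : (1 / 2 + t * I : ℂ) ≠ 1 := by
    intro h
    have := congrArg Complex.re h
    simp at this
  have h2 := (differentiableAt_riemannZeta h1).continuousAt
  have h3 : Continuous (fun t : ℝ => (1 / 2 + t * I : ℂ)) := by fun_prop
  exact ContinuousAt.comp (f := fun t : ℝ => (1 / 2 + t * I : ℂ)) h2 h3.continuousAt

lemma zeta_bound (t : ℝ) (_ht : 0 ≤ t) : ‖riemannZeta (1 / 2 + t * I)‖ ≤ 24 * (1 + t) ^ 2 := by
  have h := Pool.Agent.H306R2.zeta_norm_le (s := 1 / 2 + t * I) (by simp) (by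
    have h1 : |((1 / 2 + t * I : ℂ) - 1).re| ≤ ‖(1 / 2 + t * I : ℂ) - 1‖ := Complex.abs_re_le_norm _
    have h2 : |((1 / 2 + t * I : ℂ) - 1).re| = 1 / 2 := by
      simp only [Complex.sub_re, Complex.add_re, Complex.mul_re, Complex.ofReal_re,
        Complex.I_re, mul_zero, Complex.ofReal_im, Complex.I_im, mul_one, sub_self, add_zero,
        Complex.one_re]
      norm_num
    linarith)
  have h3 : ‖(1 / 2 + t * I : ℂ)‖ ≤ 1 / 2 + t := by
    refine (norm_add_le _ _).trans ?_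
    rw [norm_mul, Complex.norm_real, Complex.norm_I, mul_one, Real.norm_of_nonneg _ht]
    norm_num
  refine h.trans ?_
  have h4 : (‖(1 / 2 + t * I : ℂ)‖ + 1) ^ 2 ≤ (2 * (1 + t)) ^ 2 := by
    apply pow_le_pow_left₀ (by positivity)
    linarith
  nlinarith

lemma Dp_cont (N : ℕ) (a : ℕ → ℝ) : Continuous (fun t : ℝ => Dp N a (1 / 2 + t * I)) := by
  unfold Dp
  refine continuous_finsetSum _ fun n hn => ?_
  have hn0 : (n : ℂ) ≠ 0 := by
    have := (Finset.mem_Icc.mp hn).1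
    have : n ≠ 0 := by omega
    exact_mod_cast this
  refine continuous_const.mul ?_
  refine Continuous.const_cpow (by fun_prop) (Or.inl hn0)

lemma Dp_bound (N : ℕ) (a : ℕ → ℝ) (ha : ∀ n, |a n| ≤ 1) (t : ℝ) :
    ‖Dp N a (1 / 2 + t * I)‖ ≤ N := by
  unfold Dp
  refine (norm_sum_le _ _).trans ?_
  have h1 : ∀ n ∈ Finset.Icc 1 N, ‖(a n : ℂ) * (n : ℂ) ^ (-(1 / 2 + t * I))‖ ≤ 1 := by
    intro n hn
    have hn1 := (Finset.mem_Icc.mp hn).1
    have hn0 : (0 : ℝ) < n := by exact_mod_cast hn1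
    have hn2 : (1 : ℝ) ≤ n := by exact_mod_cast hn1
    rw [norm_mul, Complex.norm_real, Real.norm_eq_abs]
    have h2 : ‖(n : ℂ) ^ (-(1 / 2 + t * I))‖ ≤ 1 := by
      have h3 : (n : ℂ) = ((n : ℝ) : ℂ) := by push_cast; rfl
      rw [h3, Complex.norm_cpow_eq_rpow_re_of_pos hn0]
      refine Real.rpow_le_one_of_one_le_of_nonpos hn2 ?_
      simp
    calc |a n| * ‖(n : ℂ) ^ (-(1 / 2 + t * I))‖ ≤ 1 * 1 :=
          mul_le_mul (ha n) h2 (norm_nonneg _) zero_le_one
      _ = 1 := one_mul 1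
  refine (Finset.sum_le_sum h1).trans ?_
  simp

lemma hh_cont (N : ℕ) (a : ℕ → ℝ) : Continuous (hh N a) := by
  unfold hh
  exact zeta_cont.norm.mul (Dp_cont N a).norm

lemma win_int (N k : ℕ) (a : ℕ → ℝ) (ha : ∀ n, |a n| ≤ 1) (hk : 1 ≤ k) {τ : ℝ} (hτ : 0 < τ) :
    IntegrableOn (fun t => weight k τ t * hh N a t ^ 2) (Set.Ioi 0) := by
  refine Integrable.mono' ((weight_poly k 4 hk hτ).const_mul (576 * (N : ℝ) ^ 2)) ?_ ?_
  · exact ((weight_cont k τ).mul ((hh_cont N a).pow 2)).aestronglyMeasurable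
  · refine (ae_restrict_iff' measurableSet_Ioi).mpr (Eventually.of_forall fun t ht => ?_)
    have ht0 : (0:ℝ) ≤ t := le_of_lt ht
    have h1 := weight_nonneg (k := k) hτ ht0
    rw [Real.norm_of_nonneg (by positivity)]
    have h2 := zeta_bound t ht0
    have h3 := Dp_bound N a ha t
    have h4 : hh N a t ≤ 24 * (1 + t) ^ 2 * N := by
      unfold hh
      exact mul_le_mul h2 h3 (norm_nonneg _) (by positivity)
    have h5 : 0 ≤ hh N a t := by unfold hh; positivity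
    have h6 : hh N a t ^ 2 ≤ (24 * (1 + t) ^ 2 * N) ^ 2 := pow_le_pow_left₀ h5 h4 2
    calc weight k τ t * hh N a t ^ 2 ≤ weight k τ t * (24 * (1 + t) ^ 2 * N) ^ 2 :=
          mul_le_mul_of_nonneg_left h6 h1
      _ = 576 * (N : ℝ) ^ 2 * (weight k τ t * (1 + t) ^ 4) := by ring

/-- the diagonal term is `QF` -/
lemma diag_eq (N : ℕ) (a : ℕ → ℝ) (u v : ℝ) (hu : 0 < u) :
    (∑ h ∈ Finset.Icc 1 N, ∑ l ∈ Finset.Icc 1 N, ((a h : ℝ) : ℂ) * (starRingEnd ℂ) ((a l : ℝ) : ℂ) *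
        ((1 / (Nat.lcm h l : ℝ) *
          (Real.log (u * (Nat.gcd h l : ℝ) ^ 2 / ((h : ℝ) * l)) + v) : ℝ) : ℂ)) =
      ((QF N a (Real.log u + v) : ℝ) : ℂ) := by
  unfold QF
  push_cast
  refine Finset.sum_congr rfl fun h hh => Finset.sum_congr rfl fun l hl => ?_
  have hh1 := (Finset.mem_Icc.mp hh).1
  have hl1 := (Finset.mem_Icc.mp hl).1
  have hh0 : (0 : ℝ) < h := by exact_mod_cast hh1
  have hl0 : (0 : ℝ) < l := by exact_mod_cast hl1
  have hg : (0 : ℝ) < Nat.gcd h l := by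
    exact_mod_cast Nat.gcd_pos_of_pos_left _ (by omega)
  rw [Complex.conj_ofReal]
  have h1 : Real.log (u * (Nat.gcd h l : ℝ) ^ 2 / ((h : ℝ) * l)) =
      Real.log u + Real.log ((Nat.gcd h l : ℝ) ^ 2 / ((h : ℝ) * l)) := by
    rw [mul_div_assoc, Real.log_mul hu.ne' (by positivity)]
  rw [h1]
  push_cast
  ring

theorem win (hS : S_tsm) (hQ : S_sel) : S_win := by
  intro α β ε hα hαβ hε
  obtain ⟨C, hC, hsel⟩ := hQ
  have hβ : 0 < β := hα.trans hαβ
  -- exponents
  set q : ℝ := 27 / 14 + ε / 4 with hq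
  have hq0 : 0 < q := by positivity
  set θ₂ : ℝ := 1 / q with hθ₂
  have hθ₂0 : 0 < θ₂ := by positivity
  have hθ₂1 : θ₂ < 14 / 27 := by
    rw [hθ₂, div_lt_div_iff₀ hq0 (by norm_num)]
    rw [hq]; linarith
  obtain ⟨θ, hθa, hθb⟩ := exists_between hθ₂1
  obtain ⟨θ₁, hθ₁a, hθ₁b⟩ := exists_between hθa
  obtain ⟨η, hη, hev⟩ := hS θ hθb
  -- threshold in τ
  have hev2 : ∀ᶠ τ : ℝ in atTop, τ ^ (-η) ≤ ε / 2 := by
    have := tendsto_rpow_neg_atTop hη
    filter_upwards [this.eventually (eventually_le_nhds (show (0 : ℝ) < ε / 2 by positivity))]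
      with τ hτ using hτ
  obtain ⟨T₀, hT₀⟩ := eventually_atTop.mp (hev.and hev2)
  set c : ℝ := |Real.log α| + |Real.log β| with hc
  have hc0 : 0 ≤ c := by positivity
  have hlog := Real.tendsto_log_atTop
  have hp1 : Tendsto (fun T : ℝ => T ^ (θ₁ - θ₂)) atTop atTop := tendsto_rpow_atTop (by linarith)
  have hp2 : Tendsto (fun T : ℝ => α ^ θ * T ^ (θ - θ₁)) atTop atTop :=
    (tendsto_rpow_atTop (by linarith)).const_mul_atTop (Real.rpow_pos_of_pos hα θ)
  have hp3 : Tendsto (fun T : ℝ => T ^ θ₂) atTop atTop := tendsto_rpow_atTop hθ₂0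
  have hp4 : Tendsto (fun T : ℝ => T ^ (1 - θ₁)) atTop atTop := tendsto_rpow_atTop (by linarith)
  have hlit : ∀ᶠ T : ℝ in atTop, 2 * Real.pi * (2 * Real.log T ^ 2 + 1) ≤ α * T := by
    have h1 : (fun T : ℝ => 2 * Real.log T ^ 2 + 1) =o[atTop] (fun T : ℝ => T) := by
      have h2 : (fun T : ℝ => Real.log T ^ (2 : ℝ)) =o[atTop] (fun T : ℝ => T ^ (1 : ℝ)) :=
        isLittleO_log_rpow_rpow_atTop 2 one_pos
      have h3 : (fun T : ℝ => Real.log T ^ 2) =o[atTop] (fun T : ℝ => T) := by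
        refine h2.congr' ?_ ?_
        · filter_upwards with T; norm_cast
        · filter_upwards with T; simp
      have h4 : (fun _ : ℝ => (1 : ℝ)) =o[atTop] (fun T : ℝ => T) :=
        Asymptotics.isLittleO_const_id_atTop 1
      exact (h3.const_mul_left 2).add h4
    have h5 := h1.def (show (0 : ℝ) < α / (2 * Real.pi) by positivity)
    filter_upwards [h5, eventually_ge_atTop 0] with T hT hT0
    rw [Real.norm_of_nonneg (by positivity), Real.norm_of_nonneg hT0] at hT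
    calc 2 * Real.pi * (2 * Real.log T ^ 2 + 1) ≤ 2 * Real.pi * (α / (2 * Real.pi) * T) :=
          mul_le_mul_of_nonneg_left hT (by positivity)
      _ = α * T := by field_simp
  filter_upwards [eventually_ge_atTop (T₀ / α), eventually_ge_atTop 1,
    hlog.eventually_ge_atTop (4 * c), hlog.eventually_ge_atTop 2,
    hlog.eventually_ge_atTop ((c + 2 + C) / (θ₂ * (ε / 4))),
    hp1.eventually_ge_atTop 2, hp2.eventually_ge_atTop 1, hp3.eventually_ge_atTop 2,
    hp4.eventually_ge_atTop 1, hlit] with T hT1 hT2 hT3 hT4 hT5 hT6 hT7 hT8 hT9 hT10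
  have hTpos : 0 < T := by linarith
  set l : ℝ := Real.log T with hl
  -- the length
  have hN0 : T ^ θ₂ + 1 ≤ T ^ θ₁ := by
    have h1 : T ^ θ₁ = T ^ θ₂ * T ^ (θ₁ - θ₂) := by
      rw [← Real.rpow_add hTpos]; congr 1; ring
    rw [h1]
    nlinarith
  set N : ℕ := ⌊T ^ θ₁⌋₊ with hN
  have hN1 : (N : ℝ) ≤ T ^ θ₁ := Nat.floor_le (by positivity)
  have hN2 : T ^ θ₂ ≤ N := by
    have := Nat.lt_floor_add_one (T ^ θ₁)
    have h3 : T ^ θ₁ < (N : ℝ) + 1 := this
    linarith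
  have hN3 : (2 : ℝ) ≤ N := by linarith
  have hN4 : 2 ≤ N := by exact_mod_cast hN3
  have hNT : (N : ℝ) ≤ T := by
    have h1 : T ^ θ₁ ≤ T ^ (1 : ℝ) := by
      have h2 : T ^ (1 : ℝ) = T ^ θ₁ * T ^ (1 - θ₁) := by
        rw [← Real.rpow_add hTpos]; congr 1; ring
      rw [h2]
      have : 0 < T ^ θ₁ := Real.rpow_pos_of_pos hTpos _
      nlinarith
    rw [Real.rpow_one] at h1
    linarith
  obtain ⟨a, ha1, ha2, ha3⟩ := hsel N hN4
  set k : ℕ := ⌈2 * l ^ 2⌉₊ with hk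
  have hk1 : 2 * l ^ 2 ≤ k := Nat.le_ceil _
  have hk2 : (k : ℝ) ≤ 2 * l ^ 2 + 1 := (Nat.ceil_lt_add_one (by positivity)).le
  have hk3 : (8 : ℝ) ≤ k := by nlinarith
  have hk4 : 1 ≤ k := by
    have : (1 : ℝ) ≤ k := by linarith
    exact_mod_cast this
  have hkpos : (0 : ℝ) < k := by linarith
  refine ⟨N, a, k, by omega, hNT, ha1, ha2, by nlinarith, fun τ hτ1 hτ2 => ?_⟩
  have hτ0 : 0 < τ := by
    have : 0 < α * T := by positivity
    linarith
  refine ⟨win_int N k a ha2 hk4 hτ0, ?_⟩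
  -- logarithms
  have hlτ : |Real.log τ - l| ≤ c := by
    have h1 : Real.log (α * T) ≤ Real.log τ := Real.log_le_log (by positivity) hτ1
    have h2 : Real.log τ ≤ Real.log (β * T) := Real.log_le_log hτ0 hτ2
    rw [Real.log_mul hα.ne' hTpos.ne'] at h1
    rw [Real.log_mul hβ.ne' hTpos.ne'] at h2
    rw [abs_le]
    have h3 := neg_abs_le (Real.log α)
    have h4 := le_abs_self (Real.log β)
    have h5 := abs_nonneg (Real.log α)
    have h6 := abs_nonneg (Real.log β)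
    constructor <;> linarith
  rw [abs_le] at hlτ
  obtain ⟨hlτ1, hlτ2⟩ := hlτ
  have hk5 : Real.log τ ^ 2 ≤ k := by nlinarith
  have hk6 : (k : ℝ) ≤ 4 * Real.log τ ^ 2 := by nlinarith
  have hτT : T₀ ≤ τ := by
    have : T₀ ≤ α * T := by
      rw [div_le_iff₀ hα] at hT1
      linarith
    linarith
  obtain ⟨hA, hB⟩ := hT₀ τ hτT
  have hNθ : (N : ℝ) ≤ τ ^ θ := by
    have h1 : T ^ θ₁ ≤ (α * T) ^ θ := by
      rw [Real.mul_rpow hα.le hTpos.le]
      have h2 : T ^ θ = T ^ θ₁ * T ^ (θ - θ₁) := by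
        rw [← Real.rpow_add hTpos]; congr 1; ring
      rw [h2]
      have : 0 < T ^ θ₁ := Real.rpow_pos_of_pos hTpos _
      calc T ^ θ₁ = T ^ θ₁ * 1 := (mul_one _).symm
        _ ≤ T ^ θ₁ * (α ^ θ * T ^ (θ - θ₁)) := mul_le_mul_of_nonneg_left hT7 this.le
        _ = α ^ θ * (T ^ θ₁ * T ^ (θ - θ₁)) := by ring
    have hθ0 : 0 ≤ θ := by linarith
    have h3 : (α * T) ^ θ ≤ τ ^ θ := Real.rpow_le_rpow (by positivity) hτ1 hθ0
    linarith
  have hmain := hA k hk5 hk6 N hNθ (fun n => (a n : ℂ)) (fun n => by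
    rw [Complex.norm_real, Real.norm_eq_abs]; exact ha2 n)
  have hupos : 0 < τ / (2 * Real.pi * k) := by positivity
  rw [diag_eq N a (τ / (2 * Real.pi * k)) _ hupos, ← Complex.ofReal_sub, Complex.norm_real,
    Real.norm_eq_abs] at hmain
  set L : ℝ := Real.log (τ / (2 * Real.pi * k)) + ((harmonic k : ℝ) + Real.eulerMascheroniConstant)
    with hL
  have hI : ∫ t in Set.Ioi (0 : ℝ), weight k τ t * hh N a t ^ 2 =
      ∫ t in Set.Ioi (0 : ℝ), weight k τ t * ‖riemannZeta (1 / 2 + t * I)‖ ^ 2 *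
        ‖∑ n ∈ Finset.Icc 1 N, (a n : ℂ) * (n : ℂ) ^ (-(1 / 2 + t * I))‖ ^ 2 := by
    congr 1
    funext t
    unfold hh Dp
    ring
  rw [hI]
  have hγ1 := Real.one_half_lt_eulerMascheroniConstant
  have hγ2 := Real.eulerMascheroniConstant_lt_two_thirds
  have hh1 : (harmonic k : ℝ) ≤ 1 + Real.log k := harmonic_le_one_add_log k
  have hh0 : (0 : ℝ) ≤ (harmonic k : ℝ) := by
    have : (0 : ℚ) ≤ harmonic k := by unfold harmonic; positivity
    exact_mod_cast this
  have hL0 : 0 ≤ L := by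
    have h1 : 1 ≤ τ / (2 * Real.pi * k) := by
      rw [le_div_iff₀ (by positivity), one_mul]
      calc 2 * Real.pi * (k : ℝ) ≤ 2 * Real.pi * (2 * l ^ 2 + 1) :=
            mul_le_mul_of_nonneg_left hk2 (by positivity)
        _ ≤ α * T := hT10
        _ ≤ τ := hτ1
    have h2 := Real.log_nonneg h1
    linarith
  have hL1 : L ≤ l + c + 2 := by
    rw [hL, Real.log_div hτ0.ne' (by positivity), Real.log_mul (by positivity) hkpos.ne']
    have h1 : 0 ≤ Real.log (2 * Real.pi) := Real.log_nonneg (by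
      have := Real.pi_gt_three; linarith)
    linarith
  have hQ := ha3 L hL0
  have hlN : θ₂ * l ≤ Real.log N := by
    rw [hl, ← Real.log_rpow hTpos]
    exact Real.log_le_log (Real.rpow_pos_of_pos hTpos _) hN2
  have hlpos : 0 < θ₂ * l := by positivity
  have hQ2 : (L + C) / Real.log N ≤ q + ε / 4 := by
    rw [div_le_iff₀ (by linarith)]
    have h1 : c + 2 + C ≤ l * (θ₂ * (ε / 4)) := by
      rw [div_le_iff₀ (by positivity)] at hT5
      exact hT5
    have h2 : q * θ₂ = 1 := by rw [hθ₂]; field_simp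
    have h3 : (q + ε / 4) * (θ₂ * l) ≤ (q + ε / 4) * Real.log N :=
      mul_le_mul_of_nonneg_left hlN (by positivity)
    have h4 : (q + ε / 4) * (θ₂ * l) = l + l * (θ₂ * (ε / 4)) := by
      calc (q + ε / 4) * (θ₂ * l) = (q * θ₂) * l + l * (θ₂ * (ε / 4)) := by ring
        _ = _ := by rw [h2, one_mul]
    linarith
  have h7 := (abs_le.mp hmain).2
  have h8 : q = 27 / 14 + ε / 4 := hq
  linarith

end

end Pool.Agent.Helper76.PM
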