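import Pool.Agent.Helper76.PM.Win

/-! Project PM, package MC: the mollified second moment on `[α T, β T]`. -/

set_option autoImplicit false

open Complex Filter Topology MeasureTheory

namespace Pool.Agent.Helper76.PM

open Pool.Agent.Helper75.PM

noncomputable section

theorem mom (hW : S_win) (hA : S_avg) : S_mom := by
  intro α β ε hα hαβ hε
  have hβ : 0 < β := hα.trans hαβ
  -- the small parameter
  have hu : ∃ u : ℝ, 0 < u ∧ u < 1 ∧
      (1 + u) * (41 / 14 + u) * (β * (1 + u) - α * (1 - u)) < (41 / 14 + ε) * (β - α) := by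
    have hcont : Continuous (fun u : ℝ => (1 + u) * (41 / 14 + u) * (β * (1 + u) - α * (1 - u))) := by
      fun_prop
    have h1 : Tendsto (fun u : ℝ => (1 + u) * (41 / 14 + u) * (β * (1 + u) - α * (1 - u)))
        (𝓝[>] 0) (𝓝 ((1 + 0) * (41 / 14 + 0) * (β * (1 + 0) - α * (1 - 0)))) :=
      (hcont.tendsto 0).mono_left nhdsWithin_le_nhds
    have h2 : (1 + 0) * (41 / 14 + 0) * (β * (1 + 0) - α * (1 - 0)) < (41 / 14 + ε) * (β - α) := by
      have : 0 < ε * (β - α) := mul_pos hε (by linarith)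
      nlinarith
    have h3 := h1.eventually (eventually_lt_nhds h2)
    have h4 : ∀ᶠ u : ℝ in 𝓝[>] 0, 0 < u := eventually_mem_nhdsWithin
    have h5 : ∀ᶠ u : ℝ in 𝓝[>] 0, u < 1 :=
      (eventually_lt_nhds (show (0 : ℝ) < 1 by norm_num)).filter_mono nhdsWithin_le_nhds
    obtain ⟨u, hu1, hu2, hu3⟩ := (h3.and (h4.and h5)).exists
    exact ⟨u, hu2, hu3, hu1⟩
  obtain ⟨u, hu0, hu1, hu2⟩ := hu
  obtain ⟨K, hK⟩ := hA α β u u hα hαβ hu0 hu1 hu0
  have hα' : 0 < α * (1 - u) := mul_pos hα (by linarith)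
  have hαβ' : α * (1 - u) < β * (1 + u) := by nlinarith
  filter_upwards [hW (α * (1 - u)) (β * (1 + u)) u hα' hαβ' hu0, eventually_gt_atTop 0,
    Real.tendsto_log_atTop.eventually_ge_atTop (K : ℝ)] with T hT hT0 hTK
  obtain ⟨N, a, k, hN1, hN2, ha1, ha2, hk, hw⟩ := hT
  refine ⟨N, a, hN1, hN2, ha1, ha2, ?_⟩
  have hKk : K ≤ k := by
    have : (K : ℝ) ≤ k := hTK.trans hk
    exact_mod_cast this
  have hg : Continuous (fun t => hh N a t ^ 2) := (hh_cont N a).pow 2
  have key := hK k hKk T (41 / 14 + u) (fun t => hh N a t ^ 2) hT0 (by positivity) hg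
    (fun t => by positivity) (fun τ hτ1 hτ2 => by
      obtain ⟨h1, h2⟩ := hw τ hτ1 hτ2
      have hτ0 : 0 < τ := lt_of_lt_of_le (mul_pos hα' hT0) hτ1
      rw [← ofReal_integral_eq_lintegral_ofReal h1
        ((ae_restrict_iff' measurableSet_Ioi).mpr (Eventually.of_forall fun t ht =>
          mul_nonneg (weight_nonneg hτ0 (le_of_lt ht)) (by positivity)))]
      exact ENNReal.ofReal_le_ofReal h2)
  have hle : α * T ≤ β * T := by nlinarith
  have hint : IntegrableOn (fun t => hh N a t ^ 2) (Set.Icc (α * T) (β * T)) :=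
    hg.continuousOn.integrableOn_Icc
  rw [← ofReal_integral_eq_lintegral_ofReal hint
    (Eventually.of_forall fun t => by positivity)] at key
  have hR : 0 ≤ (1 + u) * (41 / 14 + u) * ((β * (1 + u) - α * (1 - u)) * T) := by
    have : 0 ≤ β * (1 + u) - α * (1 - u) := by linarith
    positivity
  rw [ENNReal.ofReal_le_ofReal_iff hR] at key
  rw [intervalIntegral.integral_of_le hle, ← integral_Icc_eq_integral_Ioc]
  refine key.trans ?_
  calc (1 + u) * (41 / 14 + u) * ((β * (1 + u) - α * (1 - u)) * T)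
      = ((1 + u) * (41 / 14 + u) * (β * (1 + u) - α * (1 - u))) * T := by ring
    _ ≤ ((41 / 14 + ε) * (β - α)) * T := mul_le_mul_of_nonneg_right hu2.le hT0.le
    _ = (41 / 14 + ε) * ((β - α) * T) := by ring

end

end Pool.Agent.Helper76.PM
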